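import Pool.Agent.W533.PP.Stm

/-!
# PP-INSB: insertion of a last entry is bijective
-/

set_option autoImplicit false

namespace Pool.Agent.W160.PP

open Pool.Agent.W533.PP

theorem insb : INSB := by
  intro n
  rw [Fintype.bijective_iff_injective_and_card]
  constructor
  · rintro ⟨v, τ⟩ ⟨v', τ'⟩ h
    simp only at h
    have h1 : v = v' := by
      rw [← ins_last v τ, h, ins_last]
    subst h1
    have h2 : τ = τ' := by
      refine Equiv.ext fun i => ?_
      have h3 : v.succAbove (τ i) = v.succAbove (τ' i) := by
        rw [← ins_castSucc, h, ins_castSucc]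
      exact Fin.succAbove_right_injective h3
    rw [h2]
  · rw [Fintype.card_prod, Fintype.card_perm, Fintype.card_perm, Fintype.card_fin,
      Fintype.card_fin, Nat.factorial_succ]

end Pool.Agent.W160.PP
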